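import Pool.Agent.W805.LR.Stm5

set_option autoImplicit false

/-! # PD-FX: assembly for a fixed permutation -/

namespace Pool.Agent.W368.PD.FX

open Finset Equiv Filter Topology
open Pool.Agent.W805.LR Pool.Agent.W805.PD

section avg

variable {A : Type} [Fintype A]

theorem uavg_mono {F G : A → ℝ} (h : ∀ a, F a ≤ G a) : uavg F ≤ uavg G := by
  unfold uavg
  exact div_le_div_of_nonneg_right (sum_le_sum fun a _ => h a) (by positivity)

theorem uavg_add (F G : A → ℝ) : uavg (fun a => F a + G a) = uavg F + uavg G := by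
  unfold uavg
  rw [sum_add_distrib, add_div]

theorem uavg_sub (F G : A → ℝ) : uavg (fun a => F a - G a) = uavg F - uavg G := by
  unfold uavg
  rw [sum_sub_distrib, sub_div]

theorem uavg_mul (c : ℝ) (F : A → ℝ) : uavg (fun a => c * F a) = c * uavg F := by
  unfold uavg
  rw [← mul_sum, mul_div_assoc]

theorem uavg_const_le {c : ℝ} (hc : 0 ≤ c) : uavg (fun _ : A => c) ≤ c := by
  unfold uavg
  rw [sum_const, nsmul_eq_mul, card_univ]
  rcases Nat.eq_zero_or_pos (Fintype.card A) with h | h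
  · rw [h]
    simpa using hc
  · have : (0 : ℝ) < (Fintype.card A : ℝ) := by exact_mod_cast h
    rw [mul_comm, mul_div_assoc, div_self this.ne', mul_one]

theorem uavg_nonneg {F : A → ℝ} (h : ∀ a, 0 ≤ F a) : 0 ≤ uavg F := by
  unfold uavg
  exact div_nonneg (sum_nonneg fun a _ => h a) (by positivity)

theorem abs_uavg_le (F : A → ℝ) : |uavg F| ≤ uavg (fun a => |F a|) := by
  unfold uavg
  rw [abs_div, abs_of_nonneg (a := (Fintype.card A : ℝ)) (by positivity)]
  exact div_le_div_of_nonneg_right (abs_sum_le_sum_abs _ _) (by positivity)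

theorem abs_uavg_sub_le (F G : A → ℝ) : |uavg F - uavg G| ≤ uavg (fun a => |F a - G a|) := by
  rw [← uavg_sub]
  exact abs_uavg_le _

end avg

section avgM

variable {V : Type} [Fintype V] [DecidableEq V] (E : Finset V)

theorem avgM_mono {F G : Perm V → ℝ} (h : ∀ α ∈ matchings E, F α ≤ G α) :
    avgM E F ≤ avgM E G := by
  unfold avgM
  exact div_le_div_of_nonneg_right (sum_le_sum h) (by positivity)

theorem avgM_add (F G : Perm V → ℝ) : avgM E (fun a => F a + G a) = avgM E F + avgM E G := by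
  unfold avgM
  rw [sum_add_distrib, add_div]

theorem avgM_mul (c : ℝ) (F : Perm V → ℝ) : avgM E (fun a => c * F a) = c * avgM E F := by
  unfold avgM
  rw [← mul_sum, mul_div_assoc]

theorem avgM_const_le {c : ℝ} (hc : 0 ≤ c) : avgM E (fun _ => c) ≤ c := by
  unfold avgM
  rw [sum_const, nsmul_eq_mul]
  rcases Nat.eq_zero_or_pos (matchings E).card with h | h
  · rw [h]
    simpa using hc
  · have : (0 : ℝ) < ((matchings E).card : ℝ) := by exact_mod_cast h
    rw [mul_comm, mul_div_assoc, div_self this.ne', mul_one]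

end avgM

/-- the number of permutations fixing the complement of `A` -/
theorem card_fix {m : ℕ} (A : Finset (Fin m)) :
    ((univ : Finset (Perm (Fin m))).filter (fun σ => ∀ i, i ∉ A → σ i = i)).card =
      A.card.factorial := by
  have h1 := Fintype.card_congr (Equiv.Perm.subtypeEquivSubtypePerm (fun i : Fin m => i ∈ A))
  rw [Fintype.card_perm, Fintype.card_coe] at h1
  rw [h1, Fintype.card_subtype]

theorem abs_pavg_le {m : ℕ} (A : Finset (Fin m)) (G : (Fin m → Fin m → Prop) → ℝ)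
    (hG : ∀ r, |G r| ≤ 1) : |pavg A G| ≤ 1 := by
  unfold pavg
  have hpos : (0 : ℝ) < (A.card.factorial : ℝ) := by exact_mod_cast A.card.factorial_pos
  rw [abs_div, abs_of_pos hpos, div_le_one hpos]
  refine (abs_sum_le_sum_abs _ _).trans ?_
  refine (sum_le_sum fun σ _ => hG _).trans ?_
  rw [sum_const, nsmul_eq_mul, mul_one, card_fix]

/-- Pointwise bound of `bnd`. -/
theorem bnd_le {V : Type} [Fintype V] [DecidableEq V] {m K : ℕ} (hFF : S_FF) (C : ℝ) (hC : 0 < C)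
    (h : Perm V) (y : Ix m K ↪ V) (η : ℝ) (hη : 0 < η) (hK : 1 ≤ K)
    (α : Perm V) (hα : α ∈ matchings (Ey y)) :
    bnd C h y α ≤
      2 * (if (1 - η) * (2 * K) < (Ly h y).card ∧ S1y h y ≠ ∅ then (1 : ℝ) else 0) +
      2 * (if ((Dy h y).card : ℝ) ≤ (1 - η) * (2 * K) ∧ ∃ x ∈ S1y h y, r1y h y α x ∈ S1y h y
        then (1 : ℝ) else 0) +
      2 * (if ((Dy h y).card : ℝ) ≤ (1 - η) * (2 * K) ∧
        ((E1y h y α).card : ℝ) < η ^ 2 * (2 * K) / 4 then (1 : ℝ) else 0) +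
      (C / Real.sqrt (η ^ 2 * K / 2) + C / (η ^ 2 * K / 2) +
        2 * C / (η ^ 2 * K / 2) * (Zy h y : ℝ)) := by
  have hKr : (1 : ℝ) ≤ (K : ℝ) := by exact_mod_cast hK
  have hq : 0 < η ^ 2 * K / 2 := by positivity
  have t1 : (0 : ℝ) ≤ 2 * (if (1 - η) * (2 * K) < (Ly h y).card ∧ S1y h y ≠ ∅ then (1 : ℝ)
    else 0) := by split_ifs <;> norm_num
  have t2 : (0 : ℝ) ≤ 2 * (if ((Dy h y).card : ℝ) ≤ (1 - η) * (2 * K) ∧
      ∃ x ∈ S1y h y, r1y h y α x ∈ S1y h y then (1 : ℝ) else 0) := by split_ifs <;> norm_num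
  have t3 : (0 : ℝ) ≤ 2 * (if ((Dy h y).card : ℝ) ≤ (1 - η) * (2 * K) ∧
        ((E1y h y α).card : ℝ) < η ^ 2 * (2 * K) / 4 then (1 : ℝ) else 0) := by
    split_ifs <;> norm_num
  have t4 : 0 ≤ C / Real.sqrt (η ^ 2 * K / 2) + C / (η ^ 2 * K / 2) +
        2 * C / (η ^ 2 * K / 2) * (Zy h y : ℝ) := by positivity
  by_cases hS : S1y h y = ∅
  · unfold bnd
    rw [if_pos hS]
    linarith
  have hb2 : bnd C h y α ≤ 2 := by
    unfold bnd
    rw [if_neg hS]
    split_ifs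
    · exact le_refl _
    · exact min_le_left _ _
  by_cases hL : (1 - η) * (2 * K) < (Ly h y).card
  · rw [if_pos (⟨hL, hS⟩ : (1 - η) * (2 * K) < (Ly h y).card ∧ S1y h y ≠ ∅)]
    linarith
  have hDL : (Dy h y).card ≤ (Ly h y).card := by
    apply card_le_card
    intro x hx
    simp only [Dy, Ly, mem_filter, mem_union] at hx ⊢
    exact ⟨Or.inr hx.1, hx.2⟩
  have hD : ((Dy h y).card : ℝ) ≤ (1 - η) * (2 * K) := by
    have : ((Dy h y).card : ℝ) ≤ (Ly h y).card := by exact_mod_cast hDL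
    linarith
  by_cases hadj : ∃ x ∈ S1y h y, r1y h y α x ∈ S1y h y
  · rw [if_pos (⟨hD, hadj⟩ : ((Dy h y).card : ℝ) ≤ (1 - η) * (2 * K) ∧
      ∃ x ∈ S1y h y, r1y h y α x ∈ S1y h y)]
    linarith
  by_cases hE : ((E1y h y α).card : ℝ) < η ^ 2 * (2 * K) / 4
  · rw [if_pos (⟨hD, hE⟩ : ((Dy h y).card : ℝ) ≤ (1 - η) * (2 * K) ∧
        ((E1y h y α).card : ℝ) < η ^ 2 * (2 * K) / 4)]
    linarith
  have hE' : η ^ 2 * K / 2 ≤ ((E1y h y α).card : ℝ) := by
    have e : η ^ 2 * (2 * K) / 4 = η ^ 2 * K / 2 := by ring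
    rw [← e]
    exact not_lt.1 hE
  have hW : (Wc (r1y h y α) (E1y h y α) (S1y h y) : ℝ) ≤ 2 * (Zy h y : ℝ) := by
    exact_mod_cast hFF V m K h y α hα
  have hfin : bnd C h y α ≤ C / Real.sqrt (η ^ 2 * K / 2) + C / (η ^ 2 * K / 2) +
        2 * C / (η ^ 2 * K / 2) * (Zy h y : ℝ) := by
    unfold bnd
    rw [if_neg hS, if_neg hadj]
    refine (min_le_right _ _).trans ?_
    have a1 : C / Real.sqrt (E1y h y α).card ≤ C / Real.sqrt (η ^ 2 * K / 2) :=
      div_le_div_of_nonneg_left hC.le (Real.sqrt_pos.2 hq) (Real.sqrt_le_sqrt hE')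
    have a2 : C * (1 + Wc (r1y h y α) (E1y h y α) (S1y h y)) / (E1y h y α).card ≤
        C * (1 + 2 * (Zy h y : ℝ)) / (η ^ 2 * K / 2) := by
      apply div_le_div₀ (by positivity) _ hq hE'
      apply mul_le_mul_of_nonneg_left _ hC.le
      linarith
    have a3 : C * (1 + 2 * (Zy h y : ℝ)) / (η ^ 2 * K / 2) = C / (η ^ 2 * K / 2) +
        2 * C / (η ^ 2 * K / 2) * (Zy h y : ℝ) := by ring
    linarith
  linarith

theorem card_Ey {V : Type} [Fintype V] [DecidableEq V] {m K : ℕ} (y : Ix m K ↪ V) :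
    (Ey y).card = 2 * K := by
  unfold Ey
  have hinj : Function.Injective (fun i : Fin K × Bool => y (Sum.inr i)) :=
    y.injective.comp Sum.inr_injective
  rw [card_image_of_injective _ hinj]
  simp [mul_comm]

theorem avg_bnd_le {V : Type} [Fintype V] [DecidableEq V] {m K : ℕ} (hFF : S_FF) (hT : S_tail)
    (C : ℝ) (hC : 0 < C)
    (h : Perm V) (y : Ix m K ↪ V) (η : ℝ) (hη : 0 < η) (hη1 : η ≤ 1) (hK : 1 ≤ K)
    (hK2 : 8 / η ^ 2 ≤ 2 * (K : ℝ)) :
    avgM (Ey y) (fun α => bnd C h y α) ≤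
      2 * (if (1 - η) * (2 * K) < (Ly h y).card ∧ S1y h y ≠ ∅ then (1 : ℝ) else 0) +
      2 * avgM (Ey y) (fun α => if ((Dy h y).card : ℝ) ≤ (1 - η) * (2 * K) ∧
        ∃ x ∈ S1y h y, r1y h y α x ∈ S1y h y then (1 : ℝ) else 0) +
      2 * (64 / (η ^ 4 * (2 * K))) +
      (C / Real.sqrt (η ^ 2 * K / 2) + C / (η ^ 2 * K / 2) +
        2 * C / (η ^ 2 * K / 2) * (Zy h y : ℝ)) := by
  have hKr : (1 : ℝ) ≤ (K : ℝ) := by exact_mod_cast hK
  refine (avgM_mono (Ey y) fun α hα => bnd_le hFF C hC h y η hη hK α hα).trans ?_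
  rw [avgM_add, avgM_add, avgM_add, avgM_mul, avgM_mul, avgM_mul]
  have s1 : avgM (Ey y) (fun _ => if (1 - η) * (2 * K) < (Ly h y).card ∧ S1y h y ≠ ∅ then (1 : ℝ)
      else 0) ≤ if (1 - η) * (2 * K) < (Ly h y).card ∧ S1y h y ≠ ∅ then (1 : ℝ) else 0 := by
    apply avgM_const_le
    split_ifs <;> norm_num
  have s3 : avgM (Ey y) (fun α => if ((Dy h y).card : ℝ) ≤ (1 - η) * (2 * K) ∧
        ((E1y h y α).card : ℝ) < η ^ 2 * (2 * K) / 4 then (1 : ℝ) else 0) ≤
      64 / (η ^ 4 * (2 * K)) := by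
    by_cases hD : ((Dy h y).card : ℝ) ≤ (1 - η) * (2 * K)
    · have hcard : ((Ey y).card : ℝ) = 2 * K := by rw [card_Ey]; push_cast; ring
      have := (hT V (Ey y) (Dy h y) (filter_subset _ _) (by rw [card_Ey]; exact even_two_mul K)).2
        η hη hη1 (by rw [hcard]; exact hD) (by rw [hcard]; exact hK2)
      rw [hcard] at this
      refine le_trans (avgM_mono _ fun α _ => ?_) this
      have e : E1y h y α = (Ey y \ Dy h y).filter fun x => α x ∉ Dy h y := rfl
      rw [e]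
      simp only [hD, true_and]
      exact le_refl _
    · refine le_trans (avgM_mono (G := fun _ => (0 : ℝ)) _ fun α _ => ?_) ?_
      · rw [if_neg (fun hc => hD hc.1)]
      · refine (avgM_const_le _ (le_refl _)).trans ?_
        positivity
  have s4 : avgM (Ey y) (fun _ => C / Real.sqrt (η ^ 2 * K / 2) + C / (η ^ 2 * K / 2) +
        2 * C / (η ^ 2 * K / 2) * (Zy h y : ℝ)) ≤ C / Real.sqrt (η ^ 2 * K / 2) +
        C / (η ^ 2 * K / 2) + 2 * C / (η ^ 2 * K / 2) * (Zy h y : ℝ) := by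
    apply avgM_const_le
    positivity
  linarith

theorem T_le {V : Type} [Fintype V] [DecidableEq V] {m K r : ℕ} (hFF : S_FF) (hT : S_tail)
    (hFD : S_FD) (hFE : S_FE)
    (C : ℝ) (hC : 0 < C) (h : Perm V) (η : ℝ) (hη : 0 < η) (hη1 : η ≤ 1) (hK : 1 ≤ K)
    (hK2 : 8 / η ^ 2 ≤ 2 * (K : ℝ)) (hm : 1 ≤ m) (hr : 1 ≤ r) (hK3 : (1 + 2 * r) / η ≤ K)
    (hn : m + 2 * K ≤ Fintype.card V) :
    uavg (fun y : Ix m K ↪ V => avgM (Ey y) (fun α => bnd C h y α)) ≤
      2 * (m * (η + m / (2 * K))) +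
      2 * (m * (m * r / (2 * K) + r * uavg (fun y : Ix m K ↪ V => (Zy h y : ℝ)) / (2 * K) +
        (1 - η / 2) ^ r)) +
      (2 * (64 / (η ^ 4 * (2 * K))) + (C / Real.sqrt (η ^ 2 * K / 2) + C / (η ^ 2 * K / 2))) +
      2 * C / (η ^ 2 * K / 2) * uavg (fun y : Ix m K ↪ V => (Zy h y : ℝ)) := by
  have hKr : (1 : ℝ) ≤ (K : ℝ) := by exact_mod_cast hK
  have h1 := hFD V m K h η hm hK hη hη1 hn
  have h2 := hFE V m K r h η hm hK hr hη hη1 hK3 hn
  refine (uavg_mono fun y => avg_bnd_le hFF hT C hC h y η hη hη1 hK hK2).trans ?_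
  have e : ∀ y : Ix m K ↪ V, 2 * (if (1 - η) * (2 * K) < (Ly h y).card ∧ S1y h y ≠ ∅ then (1 : ℝ)
      else 0) +
      2 * avgM (Ey y) (fun α => if ((Dy h y).card : ℝ) ≤ (1 - η) * (2 * K) ∧
        ∃ x ∈ S1y h y, r1y h y α x ∈ S1y h y then (1 : ℝ) else 0) +
      2 * (64 / (η ^ 4 * (2 * K))) +
      (C / Real.sqrt (η ^ 2 * K / 2) + C / (η ^ 2 * K / 2) +
        2 * C / (η ^ 2 * K / 2) * (Zy h y : ℝ)) =
      2 * (if (1 - η) * (2 * K) < (Ly h y).card ∧ S1y h y ≠ ∅ then (1 : ℝ) else 0) +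
      2 * avgM (Ey y) (fun α => if ((Dy h y).card : ℝ) ≤ (1 - η) * (2 * K) ∧
        ∃ x ∈ S1y h y, r1y h y α x ∈ S1y h y then (1 : ℝ) else 0) +
      (2 * (64 / (η ^ 4 * (2 * K))) + (C / Real.sqrt (η ^ 2 * K / 2) + C / (η ^ 2 * K / 2))) +
        2 * C / (η ^ 2 * K / 2) * (Zy h y : ℝ) := fun y => by ring
  simp only [e]
  rw [uavg_add, uavg_add, uavg_add, uavg_mul, uavg_mul, uavg_mul]
  have s3 : uavg (fun _ : Ix m K ↪ V => 2 * (64 / (η ^ 4 * (2 * (K : ℝ)))) +
      (C / Real.sqrt (η ^ 2 * K / 2) + C / (η ^ 2 * K / 2))) ≤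
      2 * (64 / (η ^ 4 * (2 * K))) + (C / Real.sqrt (η ^ 2 * K / 2) + C / (η ^ 2 * K / 2)) := by
    apply uavg_const_le
    positivity
  linarith

theorem main (_hM : S_match) (hT : S_tail) (hFA : S_FA) (hFB : S_FB) (hFC : S_FC) (hFD : S_FD)
    (hFE : S_FE) (hFF : S_FF) : S_fix := by
  intro m δ hδ
  obtain ⟨C, hC, hB⟩ := hFB m
  obtain ⟨C1, hC1, hC1'⟩ := hFC m
  -- choice of `η`
  obtain ⟨η, hη, hη1, hηm⟩ : ∃ η : ℝ, 0 < η ∧ η ≤ 1 ∧ 2 * (m * η) ≤ δ / 8 := by
    refine ⟨min 1 (δ / (16 * (m + 1))), by positivity, min_le_left _ _, ?_⟩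
    have : min 1 (δ / (16 * (m + 1))) ≤ δ / (16 * ((m : ℝ) + 1)) := min_le_right _ _
    have h2 : 2 * ((m : ℝ) * min 1 (δ / (16 * (m + 1)))) ≤ 2 * ((m : ℝ) *
        (δ / (16 * ((m : ℝ) + 1)))) := by
      apply mul_le_mul_of_nonneg_left _ (by norm_num)
      exact mul_le_mul_of_nonneg_left this (by positivity)
    refine h2.trans ?_
    have h3 : 2 * ((m : ℝ) * (δ / (16 * ((m : ℝ) + 1)))) = δ / 8 * (m / (m + 1)) := by
      field_simp
      ring
    rw [h3]
    have h4 : (m : ℝ) / (m + 1) ≤ 1 := by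
      rw [div_le_one (by positivity)]
      linarith
    calc δ / 8 * (m / (m + 1)) ≤ δ / 8 * 1 := mul_le_mul_of_nonneg_left h4 (by positivity)
      _ = δ / 8 := mul_one _
  -- choice of `r`
  obtain ⟨r, hr, hrm⟩ : ∃ r : ℕ, 1 ≤ r ∧ 2 * (m * (1 - η / 2) ^ r) ≤ δ / 8 := by
    have hlim : Tendsto (fun r : ℕ => 2 * ((m : ℝ) * (1 - η / 2) ^ r)) atTop (𝓝 (2 * (m * 0))) :=
      ((tendsto_pow_atTop_nhds_zero_of_lt_one (by linarith) (by linarith)).const_mul _).const_mul _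
    rw [mul_zero, mul_zero] at hlim
    have h5 := (hlim.eventually_lt_const (show (0 : ℝ) < δ / 8 by positivity)).and
      (eventually_ge_atTop 1)
    obtain ⟨r, hr1, hr2⟩ := h5.exists
    exact ⟨r, hr2, hr1.le⟩
  -- choice of `K0`
  have hcast : Tendsto (fun K : ℕ => (K : ℝ)) atTop atTop := tendsto_natCast_atTop_atTop
  have hlim : Tendsto (fun K : ℕ => (m * m + m * (m * r) + 64 / η ^ 4 + 2 * C / η ^ 2) / (K : ℝ) +
      C / Real.sqrt (η ^ 2 * K / 2)) atTop (𝓝 (0 + 0)) := by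
    apply Tendsto.add
    · exact tendsto_const_nhds.div_atTop hcast
    · apply tendsto_const_nhds.div_atTop
      apply Real.tendsto_sqrt_atTop.comp
      have : (fun K : ℕ => η ^ 2 * (K : ℝ) / 2) = fun K : ℕ => (η ^ 2 / 2) * (K : ℝ) := by
        funext K
        ring
      rw [this]
      exact hcast.const_mul_atTop (by positivity)
  rw [add_zero] at hlim
  have hev : ∀ᶠ K : ℕ in atTop, (m * m + m * (m * r) + 64 / η ^ 4 + 2 * C / η ^ 2) / (K : ℝ) +
      C / Real.sqrt (η ^ 2 * K / 2) < δ / 4 ∧ m ≤ K ∧ 1 ≤ K ∧ 8 / η ^ 2 ≤ 2 * (K : ℝ) ∧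
      (1 + 2 * r) / η ≤ (K : ℝ) := by
    filter_upwards [hlim.eventually_lt_const (show (0 : ℝ) < δ / 4 by positivity),
      eventually_ge_atTop m, eventually_ge_atTop 1, hcast.eventually_ge_atTop (8 / η ^ 2),
      hcast.eventually_ge_atTop ((1 + 2 * r) / η)] with K a1 a2 a3 a4 a5
    refine ⟨a1, a2, a3, ?_, a5⟩
    have : (0 : ℝ) ≤ K := by positivity
    linarith
  obtain ⟨K0, hK0⟩ := eventually_atTop.1 hev
  refine ⟨K0, 2 * C1 + m * r * C1 + 4 * C * C1 / η ^ 2, by positivity, fun K hK => ?_⟩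
  obtain ⟨b1, b2, b3, b4, b5⟩ := hK0 K hK
  obtain ⟨n1, hn1⟩ := hC1' K b2 b3
  have hlim2 : Tendsto (fun n : ℕ => (4 * ((m : ℝ) + 2 * K) ^ 2) / (n : ℝ)) atTop (𝓝 0) :=
    tendsto_const_nhds.div_atTop hcast
  have hev2 : ∀ᶠ n : ℕ in atTop, (4 * ((m : ℝ) + 2 * K) ^ 2) / (n : ℝ) < δ / 4 :=
    hlim2.eventually_lt_const (by positivity)
  obtain ⟨n2, hn2⟩ := eventually_atTop.1 hev2
  refine ⟨max n1 (max n2 (m + 2 * K)), ?_⟩
  intro V _ _ h G hn hG
  have c1 : n1 ≤ Fintype.card V := (le_max_left _ _).trans hn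
  have c2 : n2 ≤ Fintype.card V := ((le_max_left _ _).trans (le_max_right _ _)).trans hn
  have c3 : m + 2 * K ≤ Fintype.card V := ((le_max_right _ _).trans (le_max_right _ _)).trans hn
  have hKr : (1 : ℝ) ≤ (K : ℝ) := by exact_mod_cast b3
  have hKr0 : (0 : ℝ) < (K : ℝ) := by linarith
  have : Nonempty V := by
    rw [← Fintype.card_pos_iff]
    omega
  obtain ⟨hA, hBB⟩ := hFA V m K h G hG c3
  obtain ⟨hZ, hbig⟩ := hn1 V h c1
  have hz : 0 ≤ zeta h K := by
    unfold zeta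
    apply uavg_nonneg
    intro v
    have : 0 ≤ pc h v := by
      unfold pc
      refine div_nonneg ?_ (by positivity)
      unfold len cnt
      positivity
    have h2 : 0 ≤ (K : ℝ) * pc h v := mul_nonneg hKr0.le this
    exact le_min (div_nonneg zero_le_one h2) h2
  -- the second comparison
  have hAB : |uavg (fun y : Ix m K ↪ V => pavg (Ay h y) G) -
      uavg (fun y : Ix m K ↪ V => pavg (big h K fun i => y (Sum.inl i)) G)| ≤
      2 * (C1 * zeta h K) := by
    refine (abs_uavg_sub_le _ _).trans ?_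
    have : ∀ y : Ix m K ↪ V, |pavg (Ay h y) G - pavg (big h K fun i => y (Sum.inl i)) G| ≤
        2 * (if Ay h y = big h K (fun i => y (Sum.inl i)) then (0 : ℝ) else 1) := by
      intro y
      split_ifs with hy
      · rw [hy]
        simp
      · have e1 := abs_pavg_le (Ay h y) G hG
        have e2 := abs_pavg_le (big h K fun i => y (Sum.inl i)) G hG
        calc |pavg (Ay h y) G - pavg (big h K fun i => y (Sum.inl i)) G|
            ≤ |pavg (Ay h y) G| + |pavg (big h K fun i => y (Sum.inl i)) G| := abs_sub _ _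
          _ ≤ 2 * 1 := by linarith
    refine (uavg_mono this).trans ?_
    rw [uavg_mul]
    linarith
  have hAA : |uavg (fun y : Ix m K ↪ V => avgM (Ey y) fun α => G (rel (α * h) fun i =>
      y (Sum.inl i))) - uavg (fun y : Ix m K ↪ V => pavg (Ay h y) G)| ≤
      uavg (fun y : Ix m K ↪ V => avgM (Ey y) (fun α => bnd C h y α)) :=
    (abs_uavg_sub_le _ _).trans (uavg_mono fun y => hB V K h G y hG)
  have hT' : uavg (fun y : Ix m K ↪ V => avgM (Ey y) (fun α => bnd C h y α)) ≤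
      δ / 2 + (m * r * C1 + 4 * C * C1 / η ^ 2) * zeta h K := by
    rcases Nat.eq_zero_or_pos m with hm0 | hm0
    · subst hm0
      have hzero : ∀ y : Ix 0 K ↪ V, avgM (Ey y) (fun α => bnd C h y α) ≤ 0 := by
        intro y
        have : S1y h y = ∅ := by
          unfold S1y Sy
          simp
        refine (avgM_mono (G := fun _ => (0 : ℝ)) _ fun α _ => ?_).trans
          (avgM_const_le _ (le_refl _))
        unfold bnd
        rw [if_pos this]
      refine (uavg_mono hzero).trans ((uavg_const_le (le_refl _)).trans ?_)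
      positivity
    · have := T_le hFF hT hFD hFE C hC h η hη hη1 b3 b4 hm0 hr b5 c3
      refine this.trans ?_
      set Z := uavg (fun y : Ix m K ↪ V => (Zy h y : ℝ)) with hZdef
      have d1 : 2 * ((m : ℝ) * (η + m / (2 * K))) = 2 * (m * η) + m * m / K := by
        field_simp
      have d2 : 2 * ((m : ℝ) * (m * r / (2 * K) + r * Z / (2 * K) + (1 - η / 2) ^ r)) =
          m * (m * r) / K + m * r * (Z / K) + 2 * (m * (1 - η / 2) ^ r) := by
        field_simp
      have d3 : 2 * (64 / (η ^ 4 * (2 * (K : ℝ)))) + (C / Real.sqrt (η ^ 2 * K / 2) +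
          C / (η ^ 2 * K / 2)) = (64 / η ^ 4 + 2 * C / η ^ 2) / K +
            C / Real.sqrt (η ^ 2 * K / 2) := by
        field_simp
        ring
      have d4 : 2 * C / (η ^ 2 * K / 2) * Z = 4 * C / η ^ 2 * (Z / K) := by
        field_simp
        ring
      have d5 : Z / K ≤ C1 * zeta h K := by
        rw [div_le_iff₀ hKr0]
        calc Z ≤ C1 * K * zeta h K := hZ
          _ = C1 * zeta h K * K := by ring
      have d6 : (m : ℝ) * r * (Z / K) ≤ m * r * (C1 * zeta h K) :=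
        mul_le_mul_of_nonneg_left d5 (by positivity)
      have d7 : 4 * C / η ^ 2 * (Z / K) ≤ 4 * C / η ^ 2 * (C1 * zeta h K) :=
        mul_le_mul_of_nonneg_left d5 (by positivity)
      have d8 : (m * m + m * (m * r) + 64 / η ^ 4 + 2 * C / η ^ 2) / (K : ℝ) =
          (m : ℝ) * m / K + m * (m * r) / K + (64 / η ^ 4 + 2 * C / η ^ 2) / K := by
        ring
      have d9 : (m * r * C1 + 4 * C * C1 / η ^ 2) * zeta h K = m * r * (C1 * zeta h K) +
          4 * C / η ^ 2 * (C1 * zeta h K) := by ring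
      rw [d1, d2, d3, d4, d9]
      rw [d8] at b1
      linarith
  have e1 : (2 * C1 + m * r * C1 + 4 * C * C1 / η ^ 2) * zeta h K =
      2 * (C1 * zeta h K) + (m * r * C1 + 4 * C * C1 / η ^ 2) * zeta h K := by ring
  have e2 := hn2 _ c2
  have e3 : (4 * ((m : ℝ) + 2 * K) ^ 2) / (Fintype.card V : ℝ) =
      2 * (m + 2 * K) ^ 2 / Fintype.card V + 2 * (m + 2 * K) ^ 2 / Fintype.card V := by ring
  rw [e3] at e2
  rw [e1]
  rw [abs_sub_comm] at hBB
  have f1 := abs_le.1 hA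
  have f2 := abs_le.1 hBB
  have f3 := abs_le.1 hAB
  have f4 := abs_le.1 hAA
  rw [abs_le]
  constructor
  · linarith [f1.1, f2.1, f3.1, f4.1]
  · linarith [f1.2, f2.2, f3.2, f4.2]

end Pool.Agent.W368.PD.FX
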